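import Pool.Agent.W591.FG.W

/-!
# FG: the product formula, the zero set of the percolation probability
-/

set_option autoImplicit false

namespace FrogGW.W591

open MeasureTheory ProbabilityTheory Filter Topology
open scoped ENNReal NNReal Classical

lemma lint_prod {α : Type} [MeasurableSpace α] (μ : Measure α) [IsProbabilityMeasure μ]
    {f : α → ℝ≥0∞} (hf : Measurable f) (k : ℕ) :
    ∫⁻ Y, ∏ i ∈ Finset.range k, f (Y i) ∂(Measure.infinitePi fun _ : ℕ => μ) =
      (∫⁻ x, f x ∂μ) ^ k := by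
  have h1 := lintegral_prod_eq_prod_lintegral_of_indepFun (Finset.range k)
    (fun (i : ℕ) (Y : ℕ → α) => f (Y i))
    (iIndepFun_infinitePi (P := fun _ : ℕ => μ) (X := fun _ => f) fun _ => hf)
    (fun i => hf.comp (measurable_pi_apply i))
  rw [h1]
  have h2 : ∀ i ∈ Finset.range k, ∫⁻ Y, f (Y i) ∂(Measure.infinitePi fun _ : ℕ => μ) =
      ∫⁻ x, f x ∂μ := fun i _ =>
    (measurePreserving_eval_infinitePi (fun _ : ℕ => μ) i).lintegral_comp hf
  rw [Finset.prod_congr rfl h2]
  simp

/-- branching formula -/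
lemma key (hT : FrogGW.TaskTree) (p : Measure ℕ) [IsProbabilityMeasure p] {f : Env → ℝ≥0∞}
    (hf : Measurable f) :
    ∫⁻ Z, ∏ i ∈ Finset.range (Z []), f (sh i Z) ∂(GW p) =
      ∑' k, p {k} * (∫⁻ Z, f Z ∂(GW p)) ^ k := by
  have hg : Measurable (fun q : ℕ × (ℕ → Env) => ∏ i ∈ Finset.range q.1, f (q.2 i)) := by
    refine measurable_from_prod_countable_right fun k => ?_
    exact Finset.measurable_prod (f := fun i (y : ℕ → Env) => f (y i)) (Finset.range k)
      fun i _ => hf.comp (measurable_pi_apply i)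
  have h1 := (hT p).lintegral_comp hg
  rw [h1, lintegral_prod _ hg.aemeasurable, lintegral_countable']
  refine tsum_congr fun k => ?_
  rw [lint_prod _ hf, mul_comm]

/-- sets that are determined by the children -/
lemma key_set (hT : FrogGW.TaskTree) (p : Measure ℕ) [IsProbabilityMeasure p] {F : Set Env}
    (hF : MeasurableSet F) (h : ∀ Z, Z ∈ F ↔ ∀ i < Z [], sh i Z ∈ F) :
    ∑' k, p {k} * GW p F ^ k = GW p F := by
  have h1 := key hT p (f := F.indicator 1) (measurable_one.indicator hF)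
  rw [lintegral_indicator_one hF] at h1
  rw [← h1, ← lintegral_indicator_one hF]
  refine lintegral_congr fun Z => ?_
  by_cases hZ : Z ∈ F
  · rw [Set.indicator_of_mem hZ]
    refine Finset.prod_eq_one fun i hi => ?_
    rw [Set.indicator_of_mem ((h Z).1 hZ i (Finset.mem_range.1 hi))]
    rfl
  · rw [Set.indicator_of_notMem hZ]
    obtain ⟨i, hi, hi'⟩ : ∃ i < Z [], sh i Z ∉ F := by
      by_contra hcon
      push Not at hcon
      exact hZ ((h Z).2 hcon)
    exact Finset.prod_eq_zero (Finset.mem_range.2 hi) (Set.indicator_of_notMem hi' _)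

theorem taskZero (hT : FrogGW.TaskTree) (hW : FrogGW.TaskW) : FrogGW.TaskZero := by
  intro p _ ρ h0 h1 hpos
  obtain ⟨-, hm, -, hww, hrec, -⟩ := hW ρ h0 h1
  have hF : MeasurableSet {Z | ww ρ Z = 0} := hm (measurableSet_singleton 0)
  constructor
  · refine lt_of_le_of_ne prob_le_one fun h => ?_
    have h2 : ∀ᵐ Z ∂(GW p), Z ∈ {Z | ww ρ Z = 0} := (prob_compl_eq_zero_iff hF).2 h
    have h3 : ∫⁻ Z, ENNReal.ofReal (ww ρ Z) ∂(GW p) = 0 := by
      rw [lintegral_congr_ae (g := fun _ => 0)]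
      · simp
      · filter_upwards [h2] with Z hZ
        have : ww ρ Z = 0 := hZ
        rw [this, ENNReal.ofReal_zero]
    rw [h3] at hpos
    exact lt_irrefl _ hpos
  · refine key_set hT p hF fun Z => ?_
    simp only [Set.mem_ofPred_eq]
    rw [hrec Z]
    constructor
    · intro h i hi
      have h2 : ∏ i ∈ Finset.range (Z []), (1 - ww ρ (sh i Z)) = 1 := by
        rcases mul_eq_zero.1 h with h3 | h3
        · exact absurd h3 h0.ne'
        · linarith
      have h3 : ∏ i ∈ Finset.range (Z []), (1 - ww ρ (sh i Z)) ≤ 1 - ww ρ (sh i Z) := by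
        rw [← Finset.mul_prod_erase _ _ (Finset.mem_range.2 hi)]
        have h4 : ∏ j ∈ (Finset.range (Z [])).erase i, (1 - ww ρ (sh j Z)) ≤ 1 :=
          Finset.prod_le_one (fun j _ => by linarith [(hww (sh j Z)).2])
            (fun j _ => by linarith [(hww (sh j Z)).1])
        have h5 : 0 ≤ 1 - ww ρ (sh i Z) := by linarith [(hww (sh i Z)).2]
        nlinarith
      linarith [(hww (sh i Z)).1]
    · intro h
      rw [Finset.prod_congr rfl (g := fun _ => 1)]
      · simp
      · intro i hi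
        rw [h i (Finset.mem_range.1 hi), sub_zero]

/-! ### finite trees -/

lemma inTree_append (Z : Env) (i : ℕ) (v : List ℕ) :
    InTree Z (v ++ [i]) ↔ i < Z [] ∧ InTree (sh i Z) v := by
  induction v with
  | nil => simp [InTree]
  | cons j v ih =>
    rw [List.cons_append]
    simp only [InTree]
    rw [ih]
    simp only [sh]
    tauto

lemma fin_iff (Z : Env) : {u | InTree Z u}.Finite ↔ ∀ i < Z [], {u | InTree (sh i Z) u}.Finite := by
  constructor
  · intro h i hi
    refine Set.Finite.of_finite_image (f := fun v => v ++ [i]) (h.subset ?_) ?_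
    · rintro _ ⟨v, hv, rfl⟩
      exact (inTree_append Z i v).2 ⟨hi, hv⟩
    · intro v _ w _ hvw
      exact List.append_cancel_right hvw
  · intro h
    have h1 : {u | InTree Z u} ⊆ {[]} ∪ ⋃ i ∈ Finset.range (Z []),
        (fun v => v ++ [i]) '' {u | InTree (sh i Z) u} := by
      intro u hu
      rcases List.eq_nil_or_concat u with rfl | ⟨v, i, rfl⟩
      · left; rfl
      · right
        rw [List.concat_eq_append] at hu ⊢
        have h2 := (inTree_append Z i v).1 hu
        exact Set.mem_biUnion (Finset.mem_range.2 h2.1) ⟨v, h2.2, rfl⟩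
    refine Set.Finite.subset (Set.Finite.union (Set.finite_singleton _) ?_) h1
    exact Set.Finite.biUnion (Finset.finite_toSet _) fun i hi =>
      (h i (Finset.mem_range.1 hi)).image _

lemma meas_inTree (u : List ℕ) : MeasurableSet {Z : Env | InTree Z u} := by
  induction u with
  | nil => simp [InTree]
  | cons i u ih =>
    have : {Z : Env | InTree Z (i :: u)} = {Z | InTree Z u} ∩ (fun Z : Env => Z u) ⁻¹' {k | i < k} := by
      ext Z
      simp [InTree]
    rw [this]
    exact ih.inter (measurable_pi_apply u (MeasurableSet.of_discrete))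

lemma meas_survive : MeasurableSet Survive := by
  have : Survive = ⋂ s : Finset (List ℕ), ⋃ u : List ℕ, ⋃ _ : u ∉ s, {Z : Env | InTree Z u} := by
    ext Z
    simp only [Survive, Set.mem_ofPred_eq, Set.mem_iInter, Set.mem_iUnion, exists_prop]
    constructor
    · intro h s
      obtain ⟨u, hu, hs⟩ := h.exists_notMem_finset s
      exact ⟨u, hs, hu⟩
    · intro h hfin
      obtain ⟨u, hu, hu'⟩ := h hfin.toFinset
      exact hu (hfin.mem_toFinset.2 hu')
  rw [this]
  exact MeasurableSet.iInter fun s => MeasurableSet.iUnion fun u => MeasurableSet.iUnion fun _ =>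
    meas_inTree u

lemma wn_zero (ρ : ℝ) : ∀ (n : ℕ) (Z : Env), (∀ u : List ℕ, u.length = n → ¬ InTree Z u) →
    wn ρ n Z = 0 := by
  intro n
  induction n with
  | zero => intro Z h; exact absurd trivial (h [] rfl)
  | succ n ih =>
    intro Z h
    have h1 : ∀ i ∈ Finset.range (Z []), 1 - wn ρ n (sh i Z) = 1 := by
      intro i hi
      rw [ih (sh i Z), sub_zero]
      intro v hv hv'
      refine h (v ++ [i]) (by simp [hv]) ((inTree_append Z i v).2 ⟨Finset.mem_range.1 hi, hv'⟩)
    show ρ * (1 - ∏ i ∈ Finset.range (Z []), (1 - wn ρ n (sh i Z))) = 0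
    rw [Finset.prod_congr rfl h1]
    simp

lemma ww_zero {ρ : ℝ} (h0 : 0 < ρ) (h1 : ρ < 1) {Z : Env} (h : {u | InTree Z u}.Finite) :
    ww ρ Z = 0 := by
  obtain ⟨n, hn⟩ : ∃ n : ℕ, ∀ u, InTree Z u → u.length < n := by
    refine ⟨h.toFinset.sup List.length + 1, fun u hu => Nat.lt_succ_of_le ?_⟩
    exact Finset.le_sup (f := List.length) (h.mem_toFinset.2 hu)
  refine le_antisymm ?_ (ww_nonneg h0 h1 Z)
  refine (ww_le h0 h1 n Z).trans (le_of_eq (wn_zero ρ n Z fun u hu hu' => ?_))
  exact absurd (hn u hu') (by omega)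

theorem taskExt (hT : FrogGW.TaskTree) (_hW : FrogGW.TaskW) (hP : FrogGW.TaskWpos)
    (hG : FrogGW.TaskGF) (hZ : FrogGW.TaskZero) : FrogGW.TaskExt := by
  intro p _ ρ h0 h1 hm
  refine ⟨meas_survive, ?_⟩
  have hpos := hP p ρ h0 h1 hm
  obtain ⟨hz1, hz2⟩ := hZ p ρ h0 h1 hpos
  have hmean : 1 < ∫⁻ k, (k : ℝ≥0∞) ∂p := by
    refine hm.trans_le ?_
    calc _ ≤ 1 * ∫⁻ k, (k : ℝ≥0∞) ∂p := by
          gcongr
          exact ENNReal.ofReal_le_one.2 h1.le
      _ = _ := one_mul _
  have hsub : Surviveᶜ ⊆ {Z | ww ρ Z = 0} := by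
    intro Z hZ'
    have : {u | InTree Z u}.Finite := Set.not_infinite.1 hZ'
    exact ww_zero h0 h1 this
  have hq : ∑' k, p {k} * GW p Surviveᶜ ^ k = GW p Surviveᶜ := by
    refine key_set hT p meas_survive.compl fun Z => ?_
    have h2 : ∀ Z : Env, Z ∈ Surviveᶜ ↔ {u | InTree Z u}.Finite := fun Z => Set.not_infinite
    simp only [h2]
    exact fin_iff Z
  have heq := (hG p hmean _ hz1 hz2).2 _ (measure_mono hsub) hq
  have hdiff : GW p ({Z | ww ρ Z = 0} \ Surviveᶜ) = 0 := by
    rw [measure_sdiff hsub meas_survive.compl.nullMeasurableSet (measure_ne_top _ _), heq, tsub_self]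
  have h3 : ∀ᵐ Z ∂(GW p), Z ∉ ({Z | ww ρ Z = 0} \ Surviveᶜ) :=
    measure_eq_zero_iff_ae_notMem.1 hdiff
  filter_upwards [h3] with Z hZ' hs
  have h4 : ww ρ Z ≠ 0 := fun h4 => hZ' ⟨h4, fun h5 => h5 hs⟩
  exact lt_of_le_of_ne (ww_nonneg h0 h1 Z) (Ne.symm h4)

end FrogGW.W591
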