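import Pool.Agent.W852.FG.Stms

/-!
# FG-W: basic properties of the percolation recursion
-/

set_option autoImplicit false

namespace FrogGW.W591

open MeasureTheory ProbabilityTheory Filter Topology
open scoped ENNReal NNReal Classical

lemma meas_sh (i : ℕ) : Measurable (sh i) :=
  measurable_pi_lambda _ fun v => measurable_pi_apply (v ++ [i])

lemma meas_root : Measurable (fun Z : Env => Z []) := measurable_pi_apply _

lemma meas_prod {f : Env → ℝ} (hf : Measurable f) :
    Measurable (fun Z : Env => ∏ i ∈ Finset.range (Z []), f (sh i Z)) := by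
  have h1 : Measurable (fun q : ℕ × Env => ∏ i ∈ Finset.range q.1, f (sh i q.2)) := by
    refine measurable_from_prod_countable_right fun k => ?_
    exact Finset.measurable_prod (f := fun i y => f (sh i y)) (Finset.range k)
      fun i _ => hf.comp (meas_sh i)
  exact h1.comp (meas_root.prodMk measurable_id)

lemma meas_sum {f : Env → ℝ} (hf : Measurable f) :
    Measurable (fun Z : Env => ∑ i ∈ Finset.range (Z []), f (sh i Z)) := by
  have h1 : Measurable (fun q : ℕ × Env => ∑ i ∈ Finset.range q.1, f (sh i q.2)) := by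
    refine measurable_from_prod_countable_right fun k => ?_
    exact Finset.measurable_sum (f := fun i y => f (sh i y)) (Finset.range k)
      fun i _ => hf.comp (meas_sh i)
  exact h1.comp (meas_root.prodMk measurable_id)

lemma meas_wn (ρ : ℝ) : ∀ n, Measurable (wn ρ n) := by
  intro n
  induction n with
  | zero => exact measurable_const
  | succ n ih =>
    have h := meas_prod (f := fun Z => 1 - wn ρ n Z) (measurable_const.sub ih)
    exact (measurable_const.sub h).const_mul ρ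

lemma meas_ww (ρ : ℝ) : Measurable (ww ρ) := Measurable.iInf fun n => meas_wn ρ n

lemma meas_an (ρ lam γ : ℝ) : ∀ n, Measurable (an ρ lam γ n) := by
  intro n
  induction n with
  | zero => exact measurable_const
  | succ n ih =>
    have h1 := meas_sum ih
    have h2 := meas_sum (meas_ww ρ)
    have h3 : Measurable (fun Z : Env => lam + ∑ i ∈ Finset.range (Z []), an ρ lam γ n (sh i Z)) :=
      measurable_const.add h1
    refine Measurable.ite (measurableSet_le h3 ((h2.const_mul γ).const_mul γ)) measurable_const ?_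
    exact h3.div (measurable_const.add (h2.const_mul γ))

section

variable {ρ : ℝ} (h0 : 0 < ρ) (h1 : ρ < 1)

include h0

lemma prod_bd {s : Finset ℕ} {x : ℕ → ℝ} (hx : ∀ i, 0 ≤ x i ∧ x i ≤ 1) :
    0 ≤ ρ * (1 - ∏ i ∈ s, (1 - x i)) ∧ ρ * (1 - ∏ i ∈ s, (1 - x i)) ≤ ρ := by
  have h2 : 0 ≤ ∏ i ∈ s, (1 - x i) := Finset.prod_nonneg fun i _ => by linarith [(hx i).2]
  have h3 : ∏ i ∈ s, (1 - x i) ≤ 1 := Finset.prod_le_one (fun i _ => by linarith [(hx i).2])
    (fun i _ => by linarith [(hx i).1])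
  constructor
  · exact mul_nonneg h0.le (by linarith)
  · nlinarith

include h1

lemma wn_bd : ∀ n Z, 0 ≤ wn ρ n Z ∧ wn ρ n Z ≤ 1 := by
  intro n
  induction n with
  | zero => intro Z; simp [wn]
  | succ n ih =>
    intro Z
    have h := prod_bd h0 (s := Finset.range (Z [])) (x := fun i => wn ρ n (sh i Z))
      (fun i => ih _)
    exact ⟨h.1, h.2.trans h1.le⟩

lemma wn_anti : ∀ n Z, wn ρ (n + 1) Z ≤ wn ρ n Z := by
  intro n
  induction n with
  | zero => intro Z; exact (wn_bd h0 h1 1 Z).2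
  | succ n ih =>
    intro Z
    refine mul_le_mul_of_nonneg_left ?_ h0.le
    refine sub_le_sub_left (Finset.prod_le_prod (fun i _ => ?_) fun i _ => ?_) _
    · linarith [(wn_bd h0 h1 n (sh i Z)).2]
    · linarith [ih (sh i Z)]

lemma wn_bdd (Z : Env) : BddBelow (Set.range fun n => wn ρ n Z) :=
  ⟨0, by rintro _ ⟨n, rfl⟩; exact (wn_bd h0 h1 n Z).1⟩

lemma wn_tendsto (Z : Env) : Tendsto (fun n => wn ρ n Z) atTop (𝓝 (ww ρ Z)) :=
  tendsto_atTop_ciInf (antitone_nat_of_succ_le fun n => wn_anti h0 h1 n Z) (wn_bdd h0 h1 Z)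

lemma ww_le (n : ℕ) (Z : Env) : ww ρ Z ≤ wn ρ n Z := ciInf_le (wn_bdd h0 h1 Z) n

lemma ww_nonneg (Z : Env) : 0 ≤ ww ρ Z := le_ciInf fun n => (wn_bd h0 h1 n Z).1

lemma ww_rec (Z : Env) :
    ww ρ Z = ρ * (1 - ∏ i ∈ Finset.range (Z []), (1 - ww ρ (sh i Z))) := by
  have h2 : Tendsto (fun n => wn ρ (n + 1) Z) atTop (𝓝 (ww ρ Z)) :=
    (wn_tendsto h0 h1 Z).comp (tendsto_add_atTop_nat 1)
  have h3 : Tendsto (fun n => ρ * (1 - ∏ i ∈ Finset.range (Z []), (1 - wn ρ n (sh i Z)))) atTop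
      (𝓝 (ρ * (1 - ∏ i ∈ Finset.range (Z []), (1 - ww ρ (sh i Z))))) := by
    refine Tendsto.const_mul _ (Tendsto.const_sub _ (tendsto_finsetProd _ fun i _ => ?_))
    exact (wn_tendsto h0 h1 (sh i Z)).const_sub _
  exact tendsto_nhds_unique h2 h3

end

theorem taskW : FrogGW.TaskW := by
  intro ρ h0 h1
  refine ⟨meas_wn ρ, meas_ww ρ, fun n Z => ⟨(wn_bd h0 h1 n Z).1, (wn_bd h0 h1 n Z).2,
    ww_le h0 h1 n Z, wn_anti h0 h1 n Z⟩, fun Z => ⟨ww_nonneg h0 h1 Z,
    (ww_le h0 h1 0 Z).trans (wn_bd h0 h1 0 Z).2⟩, ww_rec h0 h1, meas_an ρ⟩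

end FrogGW.W591
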