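import Pool.Agent.W591.FG.Key

/-!
# FG-WPOS: positivity of the mean survival probability
-/

set_option autoImplicit false

namespace FrogGW.W591

open MeasureTheory ProbabilityTheory Filter Topology
open scoped ENNReal NNReal Classical

lemma pow_bd {e : ℝ} (h0 : 0 ≤ e) (h1 : e ≤ 1) (k : ℕ) :
    (1 - e) ^ k ≤ 1 - k * e + (k : ℝ) ^ 2 * e ^ 2 := by
  induction k with
  | zero => simp
  | succ k ih =>
    rw [pow_succ]
    have h2 : (1 - e) ^ k * (1 - e) ≤ (1 - k * e + (k : ℝ) ^ 2 * e ^ 2) * (1 - e) :=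
      mul_le_mul_of_nonneg_right ih (by linarith)
    refine h2.trans ?_
    push_cast
    have h3 : 0 ≤ (k : ℝ) ^ 2 * e ^ 3 := by positivity
    have h4 : 0 ≤ (k : ℝ) * e ^ 2 := by positivity
    have h5 : 0 ≤ e ^ 2 := by positivity
    nlinarith

lemma integrable_bdd (p : Measure ℕ) [IsProbabilityMeasure p] {f : ℕ → ℝ} {C : ℝ}
    (h : ∀ k, |f k| ≤ C) : Integrable f p :=
  Integrable.mono' (integrable_const C) (measurable_of_countable f).aestronglyMeasurable
    (Eventually.of_forall h)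

/-- the choice of `e` -/
lemma exists_e (p : Measure ℕ) [IsProbabilityMeasure p] {ρ : ℝ} (h0 : 0 < ρ) (h1 : ρ < 1)
    (hm : 1 < ENNReal.ofReal ρ * ∫⁻ k, (k : ℝ≥0∞) ∂p) :
    ∃ e : ℝ, 0 < e ∧ e < 1 ∧ ENNReal.ofReal (1 - ρ) + ENNReal.ofReal ρ *
      ∑' k, p {k} * ENNReal.ofReal (1 - e) ^ k ≤ ENNReal.ofReal (1 - e) := by
  -- truncation
  have hsup : ∫⁻ k, (k : ℝ≥0∞) ∂p = ⨆ K : ℕ, ∫⁻ k, (if k < K then (k : ℝ≥0∞) else 0) ∂p := by
    rw [← lintegral_iSup]
    · refine lintegral_congr fun k => le_antisymm ?_ ?_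
      · refine le_iSup_of_le (k + 1) ?_
        simp
      · refine iSup_le fun K => ?_
        split_ifs
        · exact le_rfl
        · exact zero_le
    · intro K
      exact measurable_of_countable _
    · intro K L hKL k
      simp only []
      split_ifs with ha hb
      · exact le_rfl
      · exact absurd (ha.trans_le hKL) hb
      · exact zero_le
      · exact le_rfl
  rw [hsup, ENNReal.mul_iSup, lt_iSup_iff] at hm
  obtain ⟨K, hK⟩ := hm
  have b1 : ∀ k : ℕ, |(if k < K then (k : ℝ) else 0)| ≤ K := by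
    intro k
    split_ifs with h
    · rw [abs_of_nonneg (by positivity)]
      exact_mod_cast h.le
    · simp
  have b2 : ∀ k : ℕ, |(if k < K then (k : ℝ) ^ 2 else 0)| ≤ (K : ℝ) ^ 2 := by
    intro k
    split_ifs with h
    · rw [abs_of_nonneg (by positivity)]
      exact pow_le_pow_left₀ (by positivity) (by exact_mod_cast h.le) 2
    · rw [abs_zero]; positivity
  have i1 := integrable_bdd p b1
  have i2 := integrable_bdd p b2
  set m : ℝ := ∫ k : ℕ, (if k < K then (k : ℝ) else 0) ∂p with hmdef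
  set s : ℝ := ∫ k : ℕ, (if k < K then (k : ℝ) ^ 2 else 0) ∂p with hsdef
  have hs0 : 0 ≤ s := integral_nonneg fun k => by
    simp only []
    split_ifs
    · positivity
    · exact le_rfl
  have hm1 : 1 < ρ * m := by
    have h2 : ∫⁻ k : ℕ, (if k < K then (k : ℝ≥0∞) else 0) ∂p = ENNReal.ofReal m := by
      rw [hmdef, ofReal_integral_eq_lintegral_ofReal i1 (Eventually.of_forall fun k => by
        simp only []
        split_ifs
        · positivity
        · exact le_rfl)]
      refine lintegral_congr fun k => ?_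
      split_ifs
      · rw [ENNReal.ofReal_natCast]
      · rw [ENNReal.ofReal_zero]
    rw [h2, ← ENNReal.ofReal_mul h0.le, ← ENNReal.ofReal_one,
      ENNReal.ofReal_lt_ofReal_iff_of_nonneg zero_le_one] at hK
    exact hK
  set e : ℝ := min (1 / 2) ((ρ * m - 1) / (ρ * s + 1)) with hedef
  have hden : 0 < ρ * s + 1 := by positivity
  have he0 : 0 < e := lt_min (by norm_num) (div_pos (by linarith) hden)
  have he1 : e < 1 := lt_of_le_of_lt (min_le_left _ _) (by norm_num)
  have he2 : e * (ρ * s) ≤ ρ * m - 1 := by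
    have h3 : e ≤ (ρ * m - 1) / (ρ * s + 1) := min_le_right _ _
    rw [le_div_iff₀ hden] at h3
    nlinarith
  refine ⟨e, he0, he1, ?_⟩
  have hpow : ∀ k : ℕ, |(1 - e) ^ k| ≤ 1 := by
    intro k
    rw [abs_of_nonneg (pow_nonneg (by linarith) k)]
    exact pow_le_one₀ (by linarith) (by linarith)
  have h4 : ∑' k, p {k} * ENNReal.ofReal (1 - e) ^ k = ENNReal.ofReal (∫ k : ℕ, (1 - e) ^ k ∂p) := by
    rw [ofReal_integral_eq_lintegral_ofReal (integrable_bdd p hpow)
      (Eventually.of_forall fun k => pow_nonneg (by linarith) k), lintegral_countable']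
    refine tsum_congr fun k => ?_
    rw [ENNReal.ofReal_pow (by linarith), mul_comm]
  have h5 : ∫ k : ℕ, (1 - e) ^ k ∂p ≤ 1 - e * m + e ^ 2 * s := by
    have h6 : 1 - e * m + e ^ 2 * s = ∫ k : ℕ, (1 - e * (if k < K then (k : ℝ) else 0) +
        e ^ 2 * (if k < K then (k : ℝ) ^ 2 else 0)) ∂p := by
      have j1 : Integrable (fun k : ℕ => 1 - e * (if k < K then (k : ℝ) else 0)) p :=
        (integrable_const 1).sub (i1.const_mul e)
      have j2 : Integrable (fun k : ℕ => e ^ 2 * (if k < K then (k : ℝ) ^ 2 else 0)) p :=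
        i2.const_mul _
      rw [integral_add j1 j2, integral_sub (integrable_const 1) (i1.const_mul e),
        integral_const_mul, integral_const_mul]
      simp [hmdef, hsdef]
    rw [h6]
    refine integral_mono (integrable_bdd p hpow)
      (((integrable_const 1).sub (i1.const_mul e)).add (i2.const_mul _)) fun k => ?_
    simp only []
    split_ifs with hk
    · have := pow_bd he0.le he1.le k
      linarith
    · have := hpow k
      rw [abs_of_nonneg (pow_nonneg (by linarith) k)] at this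
      linarith
  have h7 : 0 ≤ ∫ k : ℕ, (1 - e) ^ k ∂p := integral_nonneg fun k => pow_nonneg (by linarith) k
  rw [h4, ← ENNReal.ofReal_mul h0.le, ← ENNReal.ofReal_add (by linarith) (by positivity)]
  refine ENNReal.ofReal_le_ofReal ?_
  have h8 : ρ * ∫ k : ℕ, (1 - e) ^ k ∂p ≤ ρ * (1 - e * m + e ^ 2 * s) :=
    mul_le_mul_of_nonneg_left h5 h0.le
  have h9 : e * (e * (ρ * s)) ≤ e * (ρ * m - 1) := mul_le_mul_of_nonneg_left he2 he0.le
  nlinarith

theorem taskWpos (hT : FrogGW.TaskTree) : FrogGW.TaskWpos := by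
  intro p _ ρ h0 h1 hm
  obtain ⟨e, he0, he1, he⟩ := exists_e p h0 h1 hm
  have hmeas : ∀ n, Measurable (fun Z => ENNReal.ofReal (1 - wn ρ n Z)) := fun n =>
    (measurable_const.sub (meas_wn ρ n)).ennreal_ofReal
  have hstep : ∀ n, ∫⁻ Z, ENNReal.ofReal (1 - wn ρ (n + 1) Z) ∂(GW p) =
      ENNReal.ofReal (1 - ρ) + ENNReal.ofReal ρ *
        ∑' k, p {k} * (∫⁻ Z, ENNReal.ofReal (1 - wn ρ n Z) ∂(GW p)) ^ k := by
    intro n
    rw [← key hT p (hmeas n)]
    have hmp : Measurable fun Z : Env =>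
        ∏ i ∈ Finset.range (Z []), ENNReal.ofReal (1 - wn ρ n (sh i Z)) := by
      have h1 : Measurable (fun q : ℕ × Env =>
          ∏ i ∈ Finset.range q.1, ENNReal.ofReal (1 - wn ρ n (sh i q.2))) := by
        refine measurable_from_prod_countable_right fun k => ?_
        exact Finset.measurable_prod (f := fun i (y : Env) => ENNReal.ofReal (1 - wn ρ n (sh i y)))
          (Finset.range k) fun i _ => (hmeas n).comp (meas_sh i)
      exact h1.comp (meas_root.prodMk measurable_id)
    have h2 : ∀ Z : Env, ENNReal.ofReal (1 - wn ρ (n + 1) Z) = ENNReal.ofReal (1 - ρ) +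
        ENNReal.ofReal ρ * ∏ i ∈ Finset.range (Z []), ENNReal.ofReal (1 - wn ρ n (sh i Z)) := by
      intro Z
      have h3 : ∀ i ∈ Finset.range (Z []), 0 ≤ 1 - wn ρ n (sh i Z) := fun i _ => by
        linarith [(wn_bd h0 h1 n (sh i Z)).2]
      rw [← ENNReal.ofReal_prod_of_nonneg h3, ← ENNReal.ofReal_mul h0.le,
        ← ENNReal.ofReal_add (by linarith) (mul_nonneg h0.le (Finset.prod_nonneg h3))]
      congr 1
      show 1 - ρ * (1 - ∏ i ∈ Finset.range (Z []), (1 - wn ρ n (sh i Z))) = _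
      ring
    rw [lintegral_congr h2, lintegral_add_left measurable_const, lintegral_const,
      measure_univ, mul_one, lintegral_const_mul _ hmp]
  have hbd : ∀ n, ∫⁻ Z, ENNReal.ofReal (1 - wn ρ n Z) ∂(GW p) ≤ ENNReal.ofReal (1 - e) := by
    intro n
    induction n with
    | zero =>
      simp [wn]
    | succ n ih =>
      rw [hstep]
      refine le_trans ?_ he
      gcongr
  have hlim : ∫⁻ Z, ENNReal.ofReal (1 - ww ρ Z) ∂(GW p) ≤ ENNReal.ofReal (1 - e) := by
    have h2 : ∀ Z, ENNReal.ofReal (1 - ww ρ Z) =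
        liminf (fun n => ENNReal.ofReal (1 - wn ρ n Z)) atTop := by
      intro Z
      refine (Tendsto.liminf_eq ?_).symm
      exact ENNReal.tendsto_ofReal ((wn_tendsto h0 h1 Z).const_sub _)
    rw [lintegral_congr h2]
    refine (lintegral_liminf_le hmeas).trans ?_
    refine (liminf_le_liminf (Eventually.of_forall hbd)).trans ?_
    simp
  by_contra hcon
  have hz : ∫⁻ Z, ENNReal.ofReal (ww ρ Z) ∂(GW p) = 0 := le_antisymm (not_lt.1 hcon) zero_le
  have h3 : (1 : ℝ≥0∞) ≤ ENNReal.ofReal (1 - e) := by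
    calc (1 : ℝ≥0∞) = ∫⁻ Z, 1 ∂(GW p) := by simp
      _ = ∫⁻ Z, (ENNReal.ofReal (1 - ww ρ Z) + ENNReal.ofReal (ww ρ Z)) ∂(GW p) := by
          refine lintegral_congr fun Z => ?_
          have hw1 : ww ρ Z ≤ 1 := (ww_le h0 h1 0 Z).trans (wn_bd h0 h1 0 Z).2
          rw [← ENNReal.ofReal_add (by linarith) (ww_nonneg h0 h1 Z), sub_add_cancel,
            ENNReal.ofReal_one]
      _ = ∫⁻ Z, ENNReal.ofReal (1 - ww ρ Z) ∂(GW p) + ∫⁻ Z, ENNReal.ofReal (ww ρ Z) ∂(GW p) :=
          lintegral_add_left ((measurable_const.sub (meas_ww ρ)).ennreal_ofReal) _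
      _ ≤ ENNReal.ofReal (1 - e) := by rw [hz, add_zero]; exact hlim
  have h4 : ENNReal.ofReal (1 - e) < 1 := ENNReal.ofReal_lt_one.2 (by linarith)
  exact absurd h3 (not_le.2 h4)

end FrogGW.W591
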