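import Pool.Agent.W852.FG.Stms

/-!
# FG-COMP: comparison of the two recursions
-/

set_option autoImplicit false

namespace FrogGW.W591

open MeasureTheory ProbabilityTheory Filter Topology
open scoped ENNReal NNReal Classical

lemma one_sub_prod_le (k : ℕ) (w : ℕ → ℝ) (hw : ∀ i, 0 ≤ w i ∧ w i ≤ 1) :
    1 - ∏ i ∈ Finset.range k, (1 - w i) ≤ ∑ i ∈ Finset.range k, w i := by
  induction k with
  | zero => simp
  | succ k ih =>
    rw [Finset.prod_range_succ, Finset.sum_range_succ]
    have h1 : 0 ≤ ∏ i ∈ Finset.range k, (1 - w i) :=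
      Finset.prod_nonneg fun i _ => by linarith [(hw i).2]
    have h2 : ∏ i ∈ Finset.range k, (1 - w i) ≤ 1 :=
      Finset.prod_le_one (fun i _ => by linarith [(hw i).2]) (fun i _ => by linarith [(hw i).1])
    nlinarith [(hw k).1, (hw k).2]

lemma an_nonneg {ρ lam γ : ℝ} (hl : 0 < lam) (hγ : 0 < γ) (hw : ∀ Z, 0 ≤ ww ρ Z) :
    ∀ n Z, 0 ≤ an ρ lam γ n Z := by
  intro n
  induction n with
  | zero => intro Z; simp [an]
  | succ n ih =>
    intro Z
    unfold an na Wf
    split_ifs
    · exact le_rfl
    · refine div_nonneg ?_ ?_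
      · exact add_nonneg hl.le (Finset.sum_nonneg fun i _ => ih _)
      · exact add_nonneg zero_le_one (mul_nonneg hγ.le (Finset.sum_nonneg fun i _ => hw _))

theorem taskComp (hTA : FrogGW.TaskTA) (hW : FrogGW.TaskW) : FrogGW.TaskComp := by
  intro lam γ hl hγ hγ1
  set ρ : ℝ := (1 - γ) / (1 + γ) with hρ
  have hρ0 : 0 < ρ := div_pos (by linarith) (by linarith)
  have hρ1 : ρ < 1 := (div_lt_one (by linarith)).2 (by linarith)
  obtain ⟨-, -, -, hww, hrec, -⟩ := hW ρ hρ0 hρ1
  have han := an_nonneg (ρ := ρ) hl hγ fun Z => (hww Z).1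
  have hta := hTA lam γ hl hγ hγ1.le
  intro n
  induction n with
  | zero =>
    intro Z
    refine ⟨by simp [TA, an], ?_⟩
    simp only [TA]
    nlinarith [(hww Z).1, (hww Z).2]
  | succ n ih =>
    intro Z
    -- abbreviations
    set k := Z [] with hk
    set A := lam + ∑ i ∈ Finset.range k, (TA lam γ n (sh i Z)).1 with hA
    set T := ∑ i ∈ Finset.range k, (TA lam γ n (sh i Z)).2 with hT
    set A' := lam + ∑ i ∈ Finset.range k, an ρ lam γ n (sh i Z) with hA'
    set S := ∑ i ∈ Finset.range k, ww ρ (sh i Z) with hS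
    have hA0 : 0 < A := add_pos_of_pos_of_nonneg hl (Finset.sum_nonneg fun i _ => (hta n _).1)
    have hAA : A ≤ A' := by
      refine add_le_add le_rfl (Finset.sum_le_sum fun i _ => (ih (sh i Z)).1)
    have hS0 : 0 ≤ S := Finset.sum_nonneg fun i _ => (hww _).1
    have hTS : γ * S ≤ T := by
      rw [hS, Finset.mul_sum]
      exact Finset.sum_le_sum fun i _ => (ih (sh i Z)).2
    have hT0 : 0 ≤ T := le_trans (mul_nonneg hγ.le hS0) hTS
    have e1 : TA lam γ (n + 1) Z = if A ≤ γ * T then (0, (T - A) / (1 + T))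
        else (A / (1 + T), T / (1 + T)) := rfl
    have e2 : an ρ lam γ (n + 1) Z = if A' ≤ γ * (γ * S) then 0 else A' / (1 + γ * S) := rfl
    constructor
    · rw [e1]
      split_ifs with h
      · exact han _ _
      · push Not at h
        have h2 : ¬ A' ≤ γ * (γ * S) := by
          push Not
          calc γ * (γ * S) ≤ γ * T := mul_le_mul_of_nonneg_left hTS hγ.le
            _ < A := h
            _ ≤ A' := hAA
        rw [e2, if_neg h2]
        have h3 : 0 < 1 + γ * S := by nlinarith
        exact div_le_div₀ (hA0.le.trans hAA) hAA h3 (by linarith)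
    · have h1 : (1 - γ) * T / (1 + T) ≤ (TA lam γ (n + 1) Z).2 := by
        rw [e1]
        split_ifs with h
        · exact div_le_div_of_nonneg_right (by linarith) (by linarith)
        · exact div_le_div_of_nonneg_right (by nlinarith) (by linarith)
      refine le_trans ?_ h1
      have h2 : ww ρ Z ≤ ρ * min S 1 := by
        rw [hrec Z]
        refine mul_le_mul_of_nonneg_left (le_min ?_ ?_) hρ0.le
        · exact one_sub_prod_le _ _ fun i => hww _
        · have : 0 ≤ ∏ i ∈ Finset.range k, (1 - ww ρ (sh i Z)) :=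
            Finset.prod_nonneg fun i _ => by linarith [(hww (sh i Z)).2]
          linarith
      set m := min S 1 with hm
      have hm0 : 0 ≤ m := le_min hS0 zero_le_one
      have hm1 : m ≤ 1 := min_le_right _ _
      have hmS : m ≤ S := min_le_left _ _
      have hTm : γ * m ≤ T := le_trans (mul_le_mul_of_nonneg_left hmS hγ.le) hTS
      calc γ * ww ρ Z ≤ γ * (ρ * m) := mul_le_mul_of_nonneg_left h2 hγ.le
        _ = (1 - γ) * (γ * m) / (1 + γ) := by rw [hρ]; ring
        _ ≤ (1 - γ) * T / (1 + T) := by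
          rw [div_le_div_iff₀ (by linarith) (by linarith)]
          have h4 : γ * m * (1 + T) ≤ T * (1 + γ) := by
            have h5 : γ * m * T ≤ γ * T := by
              have : m * T ≤ 1 * T := mul_le_mul_of_nonneg_right hm1 hT0
              nlinarith
            nlinarith
          have h6 : 0 ≤ 1 - γ := by linarith
          calc (1 - γ) * (γ * m) * (1 + T) = (1 - γ) * (γ * m * (1 + T)) := by ring
            _ ≤ (1 - γ) * (T * (1 + γ)) := mul_le_mul_of_nonneg_left h4 h6
            _ = (1 - γ) * T * (1 + γ) := by ring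

end FrogGW.W591
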